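import Pool.Agent.BEN.StmtsB

/-! Row CUM of squad BEN (MP_be01ff_an): products of curves. -/

set_option autoImplicit false

namespace Pool.Agent.BEN.H67

open Set Filter Topology MeasureTheory
open scoped InnerProductSpace ENNReal
open Pool.Agent.BE01 Pool.Agent.BEL Pool.Agent.BEF Pool.Agent.BEH

noncomputable section

variable {T : Type} [MeasurableSpace T] {μ : Measure T}

theorem cmp_eq {s : ℕ} (x : Jt s μ) (i : ℕ) (h : i < s + 1) : cmp x i = (x ⟨i, h⟩ : T → ℝ) :=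
  dif_pos h

theorem coeFn_fin_sum {p : ℝ≥0∞} {α : Type} (S : Finset α) (f : α → Lp ℝ p μ) :
    (∑ i ∈ S, f i : Lp ℝ p μ) =ᵐ[μ] fun z => ∑ i ∈ S, f i z := by
  classical
  induction S using Finset.induction_on with
  | empty =>
    simp only [Finset.sum_empty]
    exact Lp.coeFn_zero _ _ _
  | insert a S ha ih =>
    rw [Finset.sum_insert ha]
    filter_upwards [Lp.coeFn_add (f a) (∑ i ∈ S, f i), ih] with z h1 h2
    rw [h1, Finset.sum_insert ha]
    show f a z + (∑ i ∈ S, f i : Lp ℝ p μ) z = _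
    rw [h2]

/-- one term of the Leibniz formula -/
theorem term (qef : QefStmt) (hld : HldStmt) (inq : InqStmt) (prl : PrlStmt) [IsFiniteMeasure μ]
    (s : ℕ) (hs : 1 ≤ s) (t0 : ℝ) (x y : ℝ → Jt s μ) (hx : Cuj s μ t0 x) (hy : Cuj s μ t0 y)
    (i l k : ℕ) (hk : i + l = k) (hks : k < s) (t : ℝ) (ht : t > t0) :
    ∃ (g : ℝ → Lp ℝ (qe s (k + 1)) μ) (g' : Lp ℝ (qe s (k + 1)) μ), HasDerivAt g g' t ∧
      (∀ r, g r =ᵐ[μ] fun z => cmp (x r) i z * cmp (y r) l z) ∧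
      g' =ᵐ[μ] fun z => cmp (x t) i z * cmp (y t) (l + 1) z +
        cmp (x t) (i + 1) z * cmp (y t) l z := by
  subst hk
  have hi : i < s + 1 := by omega
  have hi1 : i + 1 < s + 1 := by omega
  have hl : l < s + 1 := by omega
  have hl1 : l + 1 < s + 1 := by omega
  obtain ⟨-, -, -, -, hmono, hadd⟩ := qef s hs
  obtain ⟨a1, ha1, -, -⟩ := inq T μ (qe s i) (qe s (i + 1)) (μ.real univ)
    (hmono i (i + 1) (by omega) (by omega)) le_rfl
  obtain ⟨a2, ha2, -, -⟩ := inq T μ (qe s l) (qe s (l + 1)) (μ.real univ)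
    (hmono l (l + 1) (by omega) (by omega)) le_rfl
  obtain ⟨B, hB, -⟩ := hld T μ (qe s i) (qe s (l + 1)) (qe s (i + l + 1))
    (hadd i (l + 1) (by omega))
  obtain ⟨B', hB', -⟩ := hld T μ (qe s (i + 1)) (qe s l) (qe s (i + l + 1)) (by
    rw [hadd (i + 1) l (by omega)]
    congr 2
    omega)
  have hcomm : ∀ u v, B u (a2 v) = B' (a1 u) v := by
    intro u v
    apply Lp.ext
    filter_upwards [hB u (a2 v), hB' (a1 u) v, ha1 u, ha2 v] with z h1 h2 h3 h4
    rw [h1, h2, h3, h4]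
  have hxc : ContinuousAt (fun r => x r ⟨i, hi⟩) t := by
    have h1 : ContinuousAt x t := hx.1.continuousAt (Ioi_mem_nhds ht)
    exact (continuous_apply (⟨i, hi⟩ : Fin (s + 1))).continuousAt.comp h1
  have hxd : HasDerivAt (fun r => a1 (x r ⟨i, hi⟩)) (x t ⟨i + 1, hi1⟩) t :=
    hx.2 ⟨i, by omega⟩ a1 ha1 t ht
  have hyd : HasDerivAt (fun r => a2 (y r ⟨l, hl⟩)) (y t ⟨l + 1, hl1⟩) t :=
    hy.2 ⟨l, by omega⟩ a2 ha2 t ht
  have hmain := prl (Lp ℝ (qe s i) μ) (Lp ℝ (qe s l) μ) (Lp ℝ (qe s (i + 1)) μ)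
    (Lp ℝ (qe s (l + 1)) μ) (Lp ℝ (qe s (i + l + 1)) μ) a1 a2 B B' (fun r => x r ⟨i, hi⟩)
    (fun r => y r ⟨l, hl⟩) (x t ⟨i + 1, hi1⟩) (y t ⟨l + 1, hl1⟩) t hcomm hxc hxd hyd
  refine ⟨_, _, hmain, ?_, ?_⟩
  · intro r
    filter_upwards [hB (x r ⟨i, hi⟩) (a2 (y r ⟨l, hl⟩)), ha2 (y r ⟨l, hl⟩)] with z h1 h2
    rw [h1, h2, cmp_eq _ i hi, cmp_eq _ l hl]
  · filter_upwards [Lp.coeFn_add (B (x t ⟨i, hi⟩) (y t ⟨l + 1, hl1⟩))
      (B' (x t ⟨i + 1, hi1⟩) (y t ⟨l, hl⟩)), hB (x t ⟨i, hi⟩) (y t ⟨l + 1, hl1⟩),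
      hB' (x t ⟨i + 1, hi1⟩) (y t ⟨l, hl⟩)] with z h1 h2 h3
    rw [h1, Pi.add_apply, h2, h3, cmp_eq _ i hi, cmp_eq _ l hl, cmp_eq _ (i + 1) hi1,
      cmp_eq _ (l + 1) hl1]

theorem cum (qef : QefStmt) (hld : HldStmt) (inq : InqStmt) (prl : PrlStmt) : CumStmt := by
  intro T _ μ _ s mul hs hmul t0 x y hx hy
  refine ⟨?_, ?_⟩
  · exact (mul.continuous.comp_continuousOn hx.1).clm_apply hy.1
  · intro j ι hι t ht
    obtain ⟨k, hk⟩ := j
    have hterm : ∀ i : Fin (k + 1), ∃ (g : ℝ → Lp ℝ (qe s (k + 1)) μ)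
        (g' : Lp ℝ (qe s (k + 1)) μ), HasDerivAt g g' t ∧
        (∀ r, g r =ᵐ[μ] fun z => cmp (x r) i z * cmp (y r) (k - i) z) ∧
        g' =ᵐ[μ] fun z => cmp (x t) i z * cmp (y t) (k - i + 1) z +
          cmp (x t) (i + 1) z * cmp (y t) (k - i) z := by
      intro i
      have hi : (i : ℕ) ≤ k := Nat.lt_succ_iff.mp i.2
      exact term qef hld inq prl s hs t0 x y hx hy i (k - i) k (by omega) hk t ht
    choose g g' hg hg1 hg2 using hterm
    have hsum : HasDerivAt (fun r => ∑ i : Fin (k + 1), (Nat.choose k i : ℝ) • g i r)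
        (∑ i : Fin (k + 1), (Nat.choose k i : ℝ) • g' i) t := by
      apply HasDerivAt.fun_sum
      intro i _
      exact (hg i).const_smul (Nat.choose k i : ℝ)
    have hk1 : k < s + 1 := by omega
    have hk2 : k + 1 < s + 1 := by omega
    have e1 : (fun r => ι ((mul (x r) (y r)) (Fin.castSucc ⟨k, hk⟩))) =
        fun r => ∑ i : Fin (k + 1), (Nat.choose k i : ℝ) • g i r := by
      funext r
      apply Lp.ext
      have h1 := hι ((mul (x r) (y r)) (Fin.castSucc ⟨k, hk⟩))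
      have h2 := hmul (x r) (y r) k (by omega)
      rw [cmp_eq _ k hk1] at h2
      have h3 := coeFn_fin_sum (μ := μ) Finset.univ
        (fun i : Fin (k + 1) => (Nat.choose k i : ℝ) • g i r)
      have h4 : ∀ᵐ z ∂μ, ∀ i : Fin (k + 1), ((Nat.choose k i : ℝ) • g i r : Lp ℝ _ μ) z =
          (Nat.choose k i : ℝ) * (cmp (x r) i z * cmp (y r) (k - i) z) := by
        rw [ae_all_iff]
        intro i
        filter_upwards [Lp.coeFn_smul (Nat.choose k i : ℝ) (g i r), hg1 i r] with z h5 h6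
        rw [h5, Pi.smul_apply, h6, smul_eq_mul]
      filter_upwards [h1, h2, h3, h4] with z h1 h2 h3 h4
      rw [h1, h3]
      refine (h2.trans ?_)
      rw [Finset.sum_congr rfl fun i _ => h4 i]
      exact (Fin.sum_univ_eq_sum_range (fun i => (Nat.choose k i : ℝ) *
        (cmp (x r) i z * cmp (y r) (k - i) z)) (k + 1)).symm
    have e2 : (mul (x t) (y t)) (Fin.succ ⟨k, hk⟩) =
        ∑ i : Fin (k + 1), (Nat.choose k i : ℝ) • g' i := by
      apply Lp.ext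
      have h2 := hmul (x t) (y t) (k + 1) (by omega)
      rw [cmp_eq _ (k + 1) hk2] at h2
      have h3 := coeFn_fin_sum (μ := μ) Finset.univ
        (fun i : Fin (k + 1) => (Nat.choose k i : ℝ) • g' i)
      have h4 : ∀ᵐ z ∂μ, ∀ i : Fin (k + 1), ((Nat.choose k i : ℝ) • g' i : Lp ℝ _ μ) z =
          (Nat.choose k i : ℝ) * (cmp (x t) i z * cmp (y t) (k - i + 1) z +
            cmp (x t) (i + 1) z * cmp (y t) (k - i) z) := by
        rw [ae_all_iff]
        intro i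
        filter_upwards [Lp.coeFn_smul (Nat.choose k i : ℝ) (g' i), hg2 i] with z h5 h6
        rw [h5, Pi.smul_apply, h6, smul_eq_mul]
      filter_upwards [h2, h3, h4] with z h2 h3 h4
      refine h2.trans ?_
      rw [h3, Finset.sum_congr rfl fun i _ => h4 i]
      have h5 := Finset.sum_choose_succ_mul (fun a b => cmp (x t) a z * cmp (y t) b z) k
      rw [h5, ← Finset.sum_add_distrib]
      have h6 := Fin.sum_univ_eq_sum_range (fun i => (Nat.choose k i : ℝ) *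
        (cmp (x t) i z * cmp (y t) (k - i + 1) z +
            cmp (x t) (i + 1) z * cmp (y t) (k - i) z)) (k + 1)
      rw [h6]
      apply Finset.sum_congr rfl
      intro i hi
      have hi' : i ≤ k := Nat.lt_succ_iff.mp (Finset.mem_range.mp hi)
      have h7 : k + 1 - i = k - i + 1 := by omega
      rw [h7]
      ring
    show HasDerivAt (fun r => ι ((mul (x r) (y r)) (Fin.castSucc ⟨k, hk⟩)))
      ((mul (x t) (y t)) (Fin.succ ⟨k, hk⟩)) t
    rw [e1, e2]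
    exact hsum

end

end Pool.Agent.BEN.H67
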