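import Pool.Agent.BEN.StmtsA

/-! Row NEO of squad BEN (MP_be01ff_an): one eigenfunction, explicit constant. -/

set_option autoImplicit false

namespace Pool.Agent.BEN.H67

open Set Filter Topology MeasureTheory
open scoped InnerProductSpace ENNReal
open Pool.Agent.BE01 Pool.Agent.BEF

noncomputable section

/-- the integral of a power of the cosine is positive -/
theorem cos_pos (p : ℕ) :
    0 < (∫ ψ in (0 : ℝ)..(2 * Real.pi), Real.cos ψ ^ (2 * p + 2)) := by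
  apply intervalIntegral.integral_pos
  · have := Real.pi_pos
    linarith
  · exact (Real.continuous_cos.pow _).continuousOn
  · intro ψ _
    have h : 2 * p + 2 = 2 * (p + 1) := by ring
    rw [h, pow_mul]
    exact pow_nonneg (sq_nonneg _) _
  · refine ⟨0, ⟨le_refl _, ?_⟩, ?_⟩
    · have := Real.pi_pos
      linarith
    · rw [Real.cos_zero, one_pow]
      exact one_pos

/-- the integral over a period does not depend on the phase -/
theorem cos_int (p : ℕ) (x y : ℝ) :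
    ∫ ψ in (0 : ℝ)..(2 * Real.pi), (y * Real.cos ψ - x * Real.sin ψ) ^ (2 * p + 2) =
      (x ^ 2 + y ^ 2) ^ (p + 1) * ∫ ψ in (0 : ℝ)..(2 * Real.pi), Real.cos ψ ^ (2 * p + 2) := by
  obtain ⟨w, hw⟩ : ∃ w : ℂ, w = ⟨y, x⟩ := ⟨_, rfl⟩
  obtain ⟨θ, hθ⟩ : ∃ θ : ℝ, θ = Complex.arg w := ⟨_, rfl⟩
  obtain ⟨r, hr⟩ : ∃ r : ℝ, r = ‖w‖ := ⟨_, rfl⟩
  have h1 : r * Real.cos θ = y := by
    rw [hr, hθ, Complex.norm_mul_cos_arg, hw]
  have h2 : r * Real.sin θ = x := by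
    rw [hr, hθ, Complex.norm_mul_sin_arg, hw]
  have h3 : r ^ 2 = x ^ 2 + y ^ 2 := by
    have h4 := Real.sin_sq_add_cos_sq θ
    rw [← h1, ← h2]
    linear_combination (-r ^ 2) * h4
  have h5 : ∀ ψ : ℝ, (y * Real.cos ψ - x * Real.sin ψ) ^ (2 * p + 2) =
      (x ^ 2 + y ^ 2) ^ (p + 1) * (fun s : ℝ => Real.cos s ^ (2 * p + 2)) (ψ + θ) := by
    intro ψ
    have h6 : y * Real.cos ψ - x * Real.sin ψ = r * Real.cos (ψ + θ) := by
      rw [Real.cos_add, ← h1, ← h2]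
      ring
    have h7 : 2 * p + 2 = 2 * (p + 1) := by ring
    show (y * Real.cos ψ - x * Real.sin ψ) ^ (2 * p + 2) =
      (x ^ 2 + y ^ 2) ^ (p + 1) * Real.cos (ψ + θ) ^ (2 * p + 2)
    rw [h6, mul_pow, ← h3, h7, pow_mul r]
  have h8 : ∫ ψ in (0 : ℝ)..(2 * Real.pi), (y * Real.cos ψ - x * Real.sin ψ) ^ (2 * p + 2) =
      ∫ ψ in (0 : ℝ)..(2 * Real.pi),
        (x ^ 2 + y ^ 2) ^ (p + 1) * (fun s : ℝ => Real.cos s ^ (2 * p + 2)) (ψ + θ) := by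
    apply intervalIntegral.integral_congr
    intro ψ _
    exact h5 ψ
  rw [h8, intervalIntegral.integral_const_mul]
  congr 1
  rw [intervalIntegral.integral_comp_add_right (fun s : ℝ => Real.cos s ^ (2 * p + 2)) θ]
  have hper : Function.Periodic (fun s : ℝ => Real.cos s ^ (2 * p + 2)) (2 * Real.pi) := by
    intro s
    show Real.cos (s + 2 * Real.pi) ^ (2 * p + 2) = Real.cos s ^ (2 * p + 2)
    rw [Real.cos_add_two_pi]
  have h9 := hper.intervalIntegral_add_eq (0 + θ) 0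
  have e1 : 0 + θ + 2 * Real.pi = 2 * Real.pi + θ := by ring
  have e2 : (0 : ℝ) + 2 * Real.pi = 2 * Real.pi := by ring
  rw [e1, e2] at h9
  exact h9

theorem neo : NeoStmt := by
  intro X H _ _ _ _ W p β φ hβ
  refine ⟨cos_pos p, ?_⟩
  intro z
  obtain ⟨x, hx⟩ : ∃ x : ℝ, x = z (Sum.inl 0) := ⟨_, rfl⟩
  obtain ⟨y, hy⟩ : ∃ y : ℝ, y = z (Sum.inr 0) := ⟨_, rfl⟩
  have hsum : (∑ i, z i ^ 2) = x ^ 2 + y ^ 2 := by
    rw [Fintype.sum_sum_type, hx, hy]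
    simp
  have hpx : ∀ ψ, px (fun _ : Fin 1 => φ) ψ z = (y * Real.cos ψ - x * Real.sin ψ) • φ := by
    intro ψ
    unfold px
    rw [hx, hy]
    simp
  have hint : ∀ ψ : ℝ, ⟪W.e (px (fun _ : Fin 1 => φ) ψ z ^ (2 * p + 1)),
      W.e (px (fun _ : Fin 1 => φ) ψ z)⟫_ℝ =
      ⟪W.e (φ ^ (2 * p + 1)), W.e φ⟫_ℝ * (y * Real.cos ψ - x * Real.sin ψ) ^ (2 * p + 2) := by
    intro ψ
    rw [hpx, smul_pow, map_smul, map_smul, real_inner_smul_left, real_inner_smul_right]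
    ring
  have h1 : ∫ ψ in (0 : ℝ)..(2 * Real.pi), ⟪W.e (px (fun _ : Fin 1 => φ) ψ z ^ (2 * p + 1)),
      W.e (px (fun _ : Fin 1 => φ) ψ z)⟫_ℝ =
      ⟪W.e (φ ^ (2 * p + 1)), W.e φ⟫_ℝ *
        ((x ^ 2 + y ^ 2) ^ (p + 1) * ∫ ψ in (0 : ℝ)..(2 * Real.pi), Real.cos ψ ^ (2 * p + 2)) := by
    rw [← cos_int p x y, ← intervalIntegral.integral_const_mul]
    apply intervalIntegral.integral_congr
    intro ψ _
    exact hint ψ
  rw [h1, hsum]
  have h2 : 0 ≤ (x ^ 2 + y ^ 2) ^ (p + 1) *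
      ∫ ψ in (0 : ℝ)..(2 * Real.pi), Real.cos ψ ^ (2 * p + 2) :=
    mul_nonneg (pow_nonneg (by positivity) _) (cos_pos p).le
  have h3 := mul_le_mul_of_nonneg_right hβ h2
  calc β * (∫ ψ in (0 : ℝ)..(2 * Real.pi), Real.cos ψ ^ (2 * p + 2)) * (x ^ 2 + y ^ 2) ^ (p + 1)
      = β * ((x ^ 2 + y ^ 2) ^ (p + 1) *
        ∫ ψ in (0 : ℝ)..(2 * Real.pi), Real.cos ψ ^ (2 * p + 2)) := by ring
    _ ≤ _ := h3

end

end Pool.Agent.BEN.H67
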